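import Pool.Agent.H70.UN.Targets2

/-!
# Board uni_modules, row STIW: one block, with the errors of the choices (MP_c62aed_lc)
-/

set_option autoImplicit false

namespace Pool.Agent.H85.UN

open Matrix Finset H43.PS Pool.Agent.H70.UN

section av

variable {X : Type} [Fintype X]

lemma av_mono {f g : X → ℝ} (h : ∀ x, f x ≤ g x) : av f ≤ av g := by
  unfold av
  exact mul_le_mul_of_nonneg_left (Finset.sum_le_sum fun x _ => h x) (by positivity)

lemma av_nonneg {f : X → ℝ} (h : ∀ x, 0 ≤ f x) : 0 ≤ av f := by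
  unfold av
  exact mul_nonneg (by positivity) (Finset.sum_nonneg fun x _ => h x)

lemma av_cmul (c : ℝ) (f : X → ℝ) : av (fun x => c * f x) = c * av f := by
  unfold av
  rw [← Finset.mul_sum]
  ring

lemma av_add (f g : X → ℝ) : av (fun x => f x + g x) = av f + av g := by
  unfold av
  rw [Finset.sum_add_distrib]
  ring

lemma av_sub (f g : X → ℝ) : av (fun x => f x - g x) = av f - av g := by
  unfold av
  rw [Finset.sum_sub_distrib]
  ring

lemma av_sum {ι : Type} (s : Finset ι) (f : ι → X → ℝ) :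
    av (fun x => ∑ i ∈ s, f i x) = ∑ i ∈ s, av (f i) := by
  unfold av
  rw [Finset.sum_comm, Finset.mul_sum]

lemma avm_apply {κ : Type} (g : X → Matrix κ κ ℝ) (x y : κ) :
    avm g x y = av (fun a => g a x y) := by
  unfold avm av
  rw [Matrix.smul_apply, Matrix.sum_apply, smul_eq_mul]

lemma avm_psd {κ : Type} [Fintype κ] [DecidableEq κ] {g : X → Matrix κ κ ℝ}
    (h : ∀ a, (g a).PosSemidef) : (avm g).PosSemidef := by
  unfold avm
  exact (Matrix.posSemidef_sum _ fun a _ => h a).smul (by positivity)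

lemma av_cons {Θ : Type} [Fintype Θ] {q : ℕ} (F : (Fin (q + 1) → Θ) → ℝ) :
    av F = av (fun a' : Fin q → Θ => av (fun θ => F (Fin.cons θ a'))) := by
  unfold av
  have h1 : ∑ a, F a = ∑ a' : Fin q → Θ, ∑ θ, F (Fin.cons θ a') := by
    rw [← (Fin.consEquiv (fun _ : Fin (q + 1) => Θ)).sum_comp, Fintype.sum_prod_type,
      Finset.sum_comm]
    rfl
  have h2 : (Fintype.card (Fin (q + 1) → Θ) : ℝ) = Fintype.card (Fin q → Θ) * Fintype.card Θ := by
    rw [Fintype.card_fun, Fintype.card_fun, Fintype.card_fin, Fintype.card_fin, pow_succ]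
    push_cast
    rfl
  rw [h1, h2, mul_inv, mul_assoc, Finset.mul_sum]

lemma av_pick {Θ : Type} [Fintype Θ] [DecidableEq Θ] (hc : 0 < Fintype.card Θ) (θ : Θ)
    (h : Θ → ℝ) : av (fun θ' => (if θ' = θ then (Fintype.card Θ : ℝ) else 0) * h θ') = h θ := by
  unfold av
  have h1 : ∀ θ', (if θ' = θ then (Fintype.card Θ : ℝ) else 0) * h θ' =
      if θ' = θ then (Fintype.card Θ : ℝ) * h θ else 0 := by
    intro θ'
    split_ifs with h2
    · rw [h2]
    · rw [zero_mul]
  simp only [h1]
  rw [Finset.sum_ite_eq' univ θ, if_pos (mem_univ _), ← mul_assoc, inv_mul_cancel₀, one_mul]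
  exact_mod_cast hc.ne'

end av

theorem pf_STIW (SPL : T_SPL) (CVX : T_CVX) (_NNG : T_NNG) : T_STIW := by
  intro κ Θ _ _ _ _ p hp hp' hΘ q
  set Q : ℝ := (Fintype.card Θ : ℝ) with hQ
  have hQ0 : 0 < Q := by rw [hQ]; exact_mod_cast hΘ
  have hp1 : 0 < p - 1 := by linarith
  have hQp : 0 ≤ Q / (p - 1) := by positivity
  have hQ1 : 0 ≤ (Q + 1) ^ (p - 1) := by positivity
  induction q with
  | zero =>
    intro g hg
    refine ⟨fun b => b.elim0, fun b => b.elim0, ?_, fun b => b.elim0⟩
    have h1 := (CVX κ (Fin 0 → Θ) g p hp hp' (by simp) hg).1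
    rw [Finset.univ_eq_empty, Finset.sum_empty]
    exact mul_nonneg hQp (by linarith)
  | succ q ih =>
    intro g hg
    set g1 : (Fin q → Θ) → Matrix κ κ ℝ := fun a' => avm (fun θ => g (Fin.cons θ a')) with hg1
    have hg1p : ∀ a', (g1 a').PosSemidef := fun a' => avm_psd fun θ => hg _
    obtain ⟨e1, he1, hs1, hG1⟩ := ih g1 hg1p
    have hcard : 0 < Fintype.card (Fin q → Θ) := by
      rw [Fintype.card_fun, Fintype.card_fin]
      exact pow_pos hΘ _
    have hcv : ∀ a', tp p (g1 a') ≤ av (fun θ => tp p (g (Fin.cons θ a'))) := fun a' =>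
      (CVX κ Θ (fun θ => g (Fin.cons θ a')) p hp hp' hΘ fun θ => hg _).1
    have havm : avm g1 = avm g := by
      ext x y
      rw [avm_apply, avm_apply, av_cons]
      simp only [hg1, avm_apply]
    have hav : av (fun a => tp p (g a)) =
        av (fun a' => av (fun θ => tp p (g (Fin.cons θ a')))) := av_cons _
    set e0 : ℝ := av (fun a' : Fin q → Θ => Q / (p - 1) *
      (av (fun θ => tp p (g (Fin.cons θ a'))) - tp p (g1 a'))) with he0
    have he00 : 0 ≤ e0 := av_nonneg fun a' => mul_nonneg hQp (by linarith [hcv a'])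
    have he0e : e0 = Q / (p - 1) * (av (fun a => tp p (g a)) - av (fun a' => tp p (g1 a'))) := by
      rw [he0, av_cmul, av_sub, hav]
    have hle : av (fun a' => tp p (g1 a')) ≤ av (fun a => tp p (g a)) := by
      rw [hav]
      exact av_mono hcv
    refine ⟨Fin.cons e0 e1, ?_, ?_, ?_⟩
    · intro b
      refine Fin.cases ?_ (fun j => ?_) b
      · rw [Fin.cons_zero]; exact he00
      · rw [Fin.cons_succ]; exact he1 j
    · rw [Fin.sum_univ_succ, Fin.cons_zero]
      simp only [Fin.cons_succ]
      rw [havm] at hs1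
      calc e0 + ∑ i, e1 i ≤ e0 + Q / (p - 1) * (av (fun a => tp p (g1 a)) - tp p (avm g)) := by
            linarith
        _ = _ := by rw [he0e]; ring
    · intro b σ hσ
      refine Fin.cases ?_ (fun j => ?_) b
      · -- the first letter
        have hS : ∀ a' : Fin q → Θ, ∃ G : Matrix (Option Θ × κ) (Option Θ × κ) ℝ, G.PosSemidef ∧
            (∀ θ x y, g (Fin.cons θ a') x y =
              ∑ u, ∑ u', cc σ θ u * cc σ θ u' * G (u, x) (u', y)) ∧
            tp p G ≤ (Q + 1) ^ (p - 1) * (tp p (g1 a') + σ ^ (2 * p) * (Q / (p - 1) *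
              (av (fun θ => tp p (g (Fin.cons θ a'))) - tp p (g1 a')))) := fun a' =>
          SPL κ Θ (fun θ => g (Fin.cons θ a')) p σ hp hp' hσ hΘ fun θ => hg _
        choose G hGp hGe hGt using hS
        refine ⟨avm G, avm_psd hGp, ?_, ?_⟩
        · intro θ x y
          rw [av_cons]
          show av (fun a' : Fin q → Θ => av (fun θ' =>
            (if θ' = θ then (Fintype.card Θ : ℝ) else 0) * g (Fin.cons θ' a') x y)) = _
          have h1 : ∀ a' : Fin q → Θ, av (fun θ' => (if θ' = θ then (Fintype.card Θ : ℝ) else 0) *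
              g (Fin.cons θ' a') x y) = ∑ u, ∑ u', cc σ θ u * cc σ θ u' * G a' (u, x) (u', y) := by
            intro a'
            rw [av_pick hΘ θ (fun θ' => g (Fin.cons θ' a') x y), hGe]
          simp only [h1]
          rw [av_sum]
          refine Finset.sum_congr rfl fun u _ => ?_
          rw [av_sum]
          refine Finset.sum_congr rfl fun u' _ => ?_
          rw [av_cmul, avm_apply]
        · rw [Fin.cons_zero]
          calc tp p (avm G) ≤ av (fun a' => tp p (G a')) :=
                (CVX (Option Θ × κ) (Fin q → Θ) G p hp hp' hcard hGp).1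
            _ ≤ av (fun a' => (Q + 1) ^ (p - 1) * (tp p (g1 a') + σ ^ (2 * p) * (Q / (p - 1) *
              (av (fun θ => tp p (g (Fin.cons θ a'))) - tp p (g1 a'))))) := av_mono hGt
            _ = (Q + 1) ^ (p - 1) * (av (fun a' => tp p (g1 a')) + σ ^ (2 * p) * e0) := by
                rw [av_cmul, av_add, av_cmul]
            _ ≤ _ := mul_le_mul_of_nonneg_left (by linarith) hQ1
      · -- the other letters
        obtain ⟨G, hGp, hGe, hGt⟩ := hG1 j σ hσ
        refine ⟨G, hGp, ?_, ?_⟩
        · intro θ x y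
          rw [← hGe θ x y, av_cons]
          show av (fun a' : Fin q → Θ => av (fun θ' =>
            (if a' j = θ then (Fintype.card Θ : ℝ) else 0) * g (Fin.cons θ' a') x y)) = _
          congr 1
          funext a'
          rw [av_cmul]
          simp only [hg1, avm_apply, hQ]
        · rw [Fin.cons_succ]
          refine hGt.trans (mul_le_mul_of_nonneg_left ?_ hQ1)
          linarith

end Pool.Agent.H85.UN
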